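import Pool.Agent.NTW.StmtsB

/-!
# Row HB1 of the squad NTW: `ν` is not supported on `k, τ k`
-/

set_option autoImplicit false

open Matrix Filter Topology

namespace Pool.Agent.NTW.H15

open Pool.Agent.PFS Pool.Agent.PFJ Pool.Agent.NTS Pool.Agent.NTW

theorem hb1 (fcs : FcsStmt) (dcp : DcpStmt) (hfb : HfbStmt) (hot : HotStmt) : Hb1Stmt := by
  classical
  intro n C Γ K c τ hD v v' ν M k hK hk
  by_contra hcon
  have h : CC C Γ := hD.toCC
  have hC : PCone C := h.toPCone
  have tv := hK.tv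
  have tv' := hK.tv'
  have hvc : ∀ i, v i ∈ closure C := fun i => tv.pes.1.cl i
  have hvc' : ∀ i, v' i ∈ closure C := fun i => tv'.pes.1.cl i
  have hxtC : ∀ t, xt v t ∈ C := fun t => tv.pes.1.pos _ fun i => Real.exp_pos _
  have htau : Tau c τ := hD.toTau
  have hsum2 : ∀ x : Fin K → V n, ∑ l, (x l + x (τ l)) = (2 : ℝ) • ∑ l, x l := by
    intro x
    have h1 : ∑ l, x (τ l) = ∑ l, x l :=
      Equiv.sum_comp (Function.Involutive.toPerm τ htau.inv) x
    rw [Finset.sum_add_distrib, h1, two_smul]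
  have hν0 : ∀ j, j ≠ k → j ≠ τ k → ν j = 0 := by
    intro j h1 h2
    refine le_antisymm ?_ (hK.pos j h1)
    by_contra h3
    push Not at h3
    exact hcon ⟨j, h1, h2, h3⟩
  set S : Finset (Fin K) := (Finset.univ.erase k).erase (τ k) with hS
  have hsplit : ∀ g : Fin K → V n, ∑ i, g i = g k + (g (τ k) + ∑ m ∈ S, g m) := by
    intro g
    rw [← Finset.add_sum_erase Finset.univ g (Finset.mem_univ k),
      ← Finset.add_sum_erase (Finset.univ.erase k) g
        (Finset.mem_erase.2 ⟨hk, Finset.mem_univ (τ k)⟩)]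
  have hνr : 0 < ν (τ k) := by
    have h1 := hK.sum
    rw [← Finset.add_sum_erase Finset.univ ν (Finset.mem_univ k),
      ← Finset.add_sum_erase (Finset.univ.erase k) ν
        (Finset.mem_erase.2 ⟨hk, Finset.mem_univ (τ k)⟩)] at h1
    have h2 : ∑ m ∈ (Finset.univ.erase k).erase (τ k), ν m = 0 := by
      refine Finset.sum_eq_zero fun m hm => ?_
      have h3 := Finset.mem_erase.1 hm
      have h4 := Finset.mem_erase.1 h3.2
      exact hν0 m h4.1 h3.1
    rw [h2] at h1
    have := hK.neg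
    linarith
  -- the points `t N`
  set t : ℕ → Fin K → ℝ := fun N i => if i = τ k then 1 else if i = k then 0 else -(N : ℝ) with ht
  have htr : ∀ N, t N (τ k) = 1 := fun N => if_pos rfl
  have htk : ∀ N, t N k = 0 := fun N => (if_neg (Ne.symm hk)).trans (if_pos rfl)
  have htm : ∀ N, ∀ m ∈ S, t N m = -(N : ℝ) := by
    intro N m hm
    have h3 := Finset.mem_erase.1 hm
    have h4 := Finset.mem_erase.1 h3.2
    exact (if_neg h3.1).trans (if_neg h4.1)
  have hνt : ∀ N, 0 < ∑ i, ν i * t N i := by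
    intro N
    have h1 : ∑ i, ν i * t N i = ν (τ k) := by
      rw [Finset.sum_eq_single (τ k)]
      · rw [htr, mul_one]
      · intro b _ hb
        by_cases hbk : b = k
        · rw [hbk, htk, mul_zero]
        · rw [hν0 b hbk hb, zero_mul]
      · intro h2
        exact absurd (Finset.mem_univ _) h2
    rw [h1]
    exact hνr
  choose x hN hL using fun N => hK.near (t N) (hνt N)
  have hM : 1 ≤ M := by
    by_contra hlt
    push Not at hlt
    have h1 : (M - 1) • xt v (t 0) ∈ closure C := by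
      have h2 := hC.cl_add (hN 0).up (hN 0).lo
      have h3 : M • xt v (t 0) - ∑ i, x 0 i + (∑ i, x 0 i - xt v (t 0)) =
          (M - 1) • xt v (t 0) := by module
      rwa [h3] at h2
    have h2 : (1 - M) • xt v (t 0) ∈ C := hC.smul _ (hxtC _) _ (by linarith)
    have h3 := hC.salient _ (subset_closure h2) (by
      have h4 : -((1 - M) • xt v (t 0)) = (M - 1) • xt v (t 0) := by module
      rw [h4]
      exact h1)
    rw [h3] at h2
    exact hC.zero h2
  have hM0 : 0 < M := by linarith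
  obtain ⟨i0, hH⟩ := hfb n C Γ K c τ hD v v' ν M k hK hk
  obtain ⟨R, hR, hot'⟩ := hot n C Γ K c τ hD v v' ν M k i0 hK hH hM
  obtain ⟨-, dLt, dU, d4, -, -, -⟩ := dcp n C Γ K c τ hD v' tv'
  obtain ⟨B, hB, hBn⟩ := hC.normal
  have hxc : ∀ N, ∑ i, x N i ∈ closure C := by
    intro N
    have h2 := hC.cl_add (hN N).lo (subset_closure (hxtC (t N)))
    rwa [sub_add_cancel] at h2
  have hyc : ∀ N l, x N l + x N (τ l) ∈ closure C := fun N => d4 (x N) (hN N).mem (hxc N)
  -- the point on the flat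
  set A : V n := ∑ m ∈ S, v m with hA
  have hrest : ∀ N, ∑ m ∈ S, Real.exp (t N m) • v m = Real.exp (-(N : ℝ)) • A := by
    intro N
    rw [hA, Finset.smul_sum]
    exact Finset.sum_congr rfl fun m hm => by rw [htm N m hm]
  have hxt : ∀ N, xt v (t N) = v k + (Real.exp 1 • v (τ k) + Real.exp (-(N : ℝ)) • A) := by
    intro N
    unfold xt
    rw [hsplit, htk, htr, Real.exp_zero, one_smul, hrest]
  have hexp : Tendsto (fun N : ℕ => Real.exp (-(N : ℝ))) atTop (𝓝 0) :=
    Real.tendsto_exp_neg_atTop_nhds_zero.comp tendsto_natCast_atTop_atTop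
  have hexpA : Tendsto (fun N : ℕ => Real.exp (-(N : ℝ)) • A) atTop (𝓝 0) := by
    have h1 := hexp.smul_const A
    rwa [zero_smul] at h1
  have hxtlim : Tendsto (fun N => xt v (t N)) atTop (𝓝 (v k + (Real.exp 1 • v (τ k) + 0))) := by
    have h1 := (hexpA.const_add (Real.exp 1 • v (τ k))).const_add (v k)
    refine h1.congr fun N => ?_
    rw [hxt]
  -- the other components tend to zero
  have hy0 : ∀ l, l ≠ i0 → l ≠ τ i0 → Tendsto (fun N => x N l + x N (τ l)) atTop (𝓝 0) := by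
    intro l h1 h2
    rw [tendsto_zero_iff_norm_tendsto_zero]
    have h3 : Tendsto (fun N : ℕ => B * ‖R • (Real.exp (-(N : ℝ)) • A)‖) atTop (𝓝 0) := by
      have h4 := ((hexpA.const_smul R).norm).const_mul B
      rwa [smul_zero, norm_zero, mul_zero] at h4
    refine squeeze_zero (fun N => norm_nonneg _) (fun N => ?_) h3
    have h5 := hot' (t N) (x N) (hN N) (hL N) l h1 h2
    rw [hrest] at h5
    exact hBn _ _ (hyc N l) h5
  set f : ℕ → V n := fun N => x N i0 + x N (τ i0) with hf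
  have hfτ : ∀ N, x N (τ i0) + x N (τ (τ i0)) = f N := by
    intro N
    rw [htau.inv, add_comm]
  set S0 : Finset (Fin K) := (Finset.univ.erase i0).erase (τ i0) with hS0
  have hsplit0 : ∀ N, (2 : ℝ) • ∑ i, x N i =
      f N + (f N + ∑ l ∈ S0, (x N l + x N (τ l))) := by
    intro N
    rw [← hsum2, ← Finset.add_sum_erase Finset.univ _ (Finset.mem_univ i0),
      ← Finset.add_sum_erase (Finset.univ.erase i0) _
        (Finset.mem_erase.2 ⟨hH.pr, Finset.mem_univ (τ i0)⟩), hfτ]
  have hS0lim : Tendsto (fun N => ∑ l ∈ S0, (x N l + x N (τ l))) atTop (𝓝 0) := by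
    have h1 : Tendsto (fun N => ∑ l ∈ S0, (x N l + x N (τ l))) atTop
        (𝓝 (∑ l ∈ S0, (0 : V n))) := by
      refine tendsto_finset_sum _ fun l hl => ?_
      have h3 := Finset.mem_erase.1 hl
      have h4 := Finset.mem_erase.1 h3.2
      exact hy0 l h4.1 h3.1
    rwa [Finset.sum_const_zero] at h1
  -- `f` is bounded
  have hfb' : ∀ N, ‖f N‖ ≤ B * ‖(2 * M) • xt v (t N)‖ := by
    intro N
    refine hBn _ _ (hyc N i0) ?_
    have h1 : (2 : ℝ) • (M • xt v (t N) - ∑ i, x N i) ∈ closure C :=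
      hC.cl_smul (hN N).up (by norm_num)
    have h2 : (2 : ℝ) • ∑ i, x N i - (x N i0 + x N (τ i0)) ∈ closure C := by
      rw [← hsum2, ← Finset.add_sum_erase Finset.univ _ (Finset.mem_univ i0), add_sub_cancel_left]
      exact hC.cl_sum fun i _ => hyc N i
    have h3 := hC.cl_add h1 h2
    have h4 : (2 : ℝ) • (M • xt v (t N) - ∑ i, x N i) +
        ((2 : ℝ) • ∑ i, x N i - (x N i0 + x N (τ i0))) =
        (2 * M) • xt v (t N) - (x N i0 + x N (τ i0)) := by module
    rwa [h4] at h3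
  obtain ⟨Q, hQ⟩ : ∃ Q : ℝ, ∀ N, ‖f N‖ ≤ Q := by
    have h1 := ((hxtlim.const_smul (2 * M)).norm).const_mul B
    obtain ⟨Q, hQ⟩ := h1.bddAbove_range
    exact ⟨Q, fun N => (hfb' N).trans (hQ ⟨N, rfl⟩)⟩
  obtain ⟨F, -, φ, hφ, hF⟩ := tendsto_subseq_of_bounded (Metric.isBounded_closedBall (x := (0 : V n))
    (r := Q)) (fun N => by rw [mem_closedBall_zero_iff]; exact hQ N) (x := f)
  have hFL : F ∈ Lf C τ v' i0 := by
    have hcl : IsClosed ((Lf C τ v' i0 : Submodule ℝ (V n)) : Set (V n)) :=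
      Submodule.closed_of_finiteDimensional _
    refine hcl.mem_of_tendsto hF (Eventually.of_forall fun N => ?_)
    refine Submodule.add_mem _ ((hN _).mem i0) ?_
    have h1 := (hN (φ N)).mem (τ i0)
    rwa [dLt] at h1
  have hslim : Tendsto (fun N => (2 : ℝ) • ∑ i, x (φ N) i) atTop (𝓝 (F + (F + 0))) := by
    have h1 := hF.add (hF.add (hS0lim.comp hφ.tendsto_atTop))
    refine h1.congr fun N => ?_
    exact (hsplit0 (φ N)).symm
  have hFp : (2 : ℝ) • F - (2 : ℝ) • (v k + (Real.exp 1 • v (τ k) + 0)) ∈ closure C := by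
    have h1 := hslim.sub ((hxtlim.comp hφ.tendsto_atTop).const_smul (2 : ℝ))
    have h2 : F + (F + 0) - (2 : ℝ) • (v k + (Real.exp 1 • v (τ k) + 0)) ∈ closure C := by
      refine isClosed_closure.mem_of_tendsto h1 (Eventually.of_forall fun N => ?_)
      have h3 := hC.cl_smul (hN (φ N)).lo (by norm_num : (0 : ℝ) ≤ 2)
      rw [smul_sub] at h3
      exact h3
    have h3 : F + (F + 0) = (2 : ℝ) • F := by module
    rwa [h3] at h2
  obtain ⟨M', hM', hle⟩ := (dU i0).2.2 F hFL
  have hvk : M' • (v' i0 + v' (τ i0)) - v k ∈ closure C := by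
    have h1 := hC.cl_smul hFp (by norm_num : (0 : ℝ) ≤ 1 / 2)
    have h2 := hC.cl_add (hC.cl_add hle h1) (hC.cl_smul (hvc (τ k)) (Real.exp_pos 1).le)
    have h3 : M' • (v' i0 + v' (τ i0)) - F +
        (1 / 2 : ℝ) • ((2 : ℝ) • F - (2 : ℝ) • (v k + (Real.exp 1 • v (τ k) + 0))) +
        Real.exp 1 • v (τ k) = M' • (v' i0 + v' (τ i0)) - v k := by module
    rwa [h3] at h2
  have hmem : v k ∈ Fs C (v' i0) (v' (τ i0)) :=
    (fcs n C hC (v' i0 + v' (τ i0)) (hC.cl_add (hvc' _) (hvc' _))).2.1 (v k) (hvc k) M' hvk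
  apply hK.out
  have hLf : Lf C τ v' i0 = Fs C (v' i0) (v' (τ i0)) := by
    unfold Lf
    rw [if_neg hH.pr]
  have h1 : v k ∈ Lf C τ v' i0 := by rw [hLf]; exact hmem
  exact (le_iSup (Lf C τ v') i0) h1

end Pool.Agent.NTW.H15
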